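import Pool.Agent.N783.PQ.Cnt

/-!
# Many polynomials in the family

Project PQ (helper783), part FAM.
-/

set_option autoImplicit false
set_option linter.all false

open Polynomial
open scoped Classical

namespace Pool.Agent.N316.PQ

open Pool.Agent.N783.PQ
open Pool.Agent.N352.PJ (dd pol dis Dy D2)

section pol

variable {g : ℕ}

theorem pol_coeff (a : Fin (2 * g) → ℤ) (n : ℕ) :
    (pol a).coeff n = if n = 2 * g + 1 then 1 else if h : n < 2 * g then a ⟨n, h⟩ else 0 := by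
  have h1 : (∑ j : Fin (2 * g), C (a j) * X ^ (j : ℕ) : ℤ[X]).coeff n =
      if h : n < 2 * g then a ⟨n, h⟩ else 0 := by
    rw [Polynomial.finset_sum_coeff]
    simp only [coeff_C_mul, coeff_X_pow, mul_ite, mul_one, mul_zero]
    split_ifs with h
    · rw [Finset.sum_eq_single (⟨n, h⟩ : Fin (2 * g))]
      · simp
      · intro b _ hb
        rw [if_neg]
        intro hn
        exact hb (Fin.ext hn.symm)
      · intro hh
        exact absurd (Finset.mem_univ _) hh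
    · apply Finset.sum_eq_zero
      intro b _
      rw [if_neg]
      have := b.2
      omega
  rw [pol, coeff_add, h1, coeff_X_pow]
  by_cases h2 : n = 2 * g + 1
  · rw [if_pos h2, if_pos h2, dif_neg (by omega), add_zero]
  · rw [if_neg h2, if_neg h2, zero_add]

theorem pol_coeff_lt (a : Fin (2 * g) → ℤ) (j : Fin (2 * g)) : (pol a).coeff j = a j := by
  rw [pol_coeff, if_neg (by have := j.2; omega), dif_pos j.2]

theorem pol_coeff_top (a : Fin (2 * g) → ℤ) : (pol a).coeff (2 * g + 1) = 1 := by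
  rw [pol_coeff, if_pos rfl]

theorem pol_coeff_tr (a : Fin (2 * g) → ℤ) : (pol a).coeff (2 * g) = 0 := by
  rw [pol_coeff, if_neg (by omega), dif_neg (by omega)]

theorem pol_coeff_gt (a : Fin (2 * g) → ℤ) {n : ℕ} (h : 2 * g + 1 < n) : (pol a).coeff n = 0 := by
  rw [pol_coeff, if_neg (by omega), dif_neg (by omega)]

theorem pol_natDegree (a : Fin (2 * g) → ℤ) : (pol a).natDegree = 2 * g + 1 := by
  apply Polynomial.natDegree_eq_of_le_of_coeff_ne_zero
  · rw [Polynomial.natDegree_le_iff_coeff_eq_zero]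
    intro n hn
    exact pol_coeff_gt a hn
  · rw [pol_coeff_top]
    exact one_ne_zero

theorem pol_monic (a : Fin (2 * g) → ℤ) : (pol a).Monic := by
  rw [Polynomial.Monic, Polynomial.leadingCoeff, pol_natDegree, pol_coeff_top]

theorem pol_inj : Function.Injective (pol : (Fin (2 * g) → ℤ) → ℤ[X]) := by
  intro a b h
  funext j
  rw [← pol_coeff_lt a j, ← pol_coeff_lt b j, h]

theorem ht_pol {B : ℕ} {a : Fin (2 * g) → ℤ}
    (ha : ∀ j, |a j| ≤ (B : ℤ) ^ (2 * g + 1 - (j : ℕ))) : Ht g B (pol a) := by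
  refine ⟨pol_monic a, pol_natDegree a, pol_coeff_tr a, fun j hj => ?_⟩
  rcases Nat.lt_or_ge j (2 * g) with h | h
  · have h1 := ha ⟨j, h⟩
    rw [← pol_coeff_lt a] at h1
    exact h1
  · have h1 : j = 2 * g := by omega
    rw [h1, pol_coeff_tr, abs_zero]
    positivity

theorem eq_pol {B : ℕ} {f : ℤ[X]} (hf : Ht g B f) : f = pol fun j : Fin (2 * g) => f.coeff j := by
  ext n
  rw [pol_coeff]
  split_ifs with h1 h2
  · rw [h1, ← hf.deg]
    exact hf.mon
  · rfl
  · rcases Nat.lt_or_ge (2 * g) n with h3 | h3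
    · apply Polynomial.coeff_eq_zero_of_natDegree_lt
      rw [hf.deg]
      omega
    · have h4 : n = 2 * g := by omega
      rw [h4, hf.tr]

/-- congruence of polynomials of the given shape -/
theorem cg_pol (a : Fin (2 * g) → ℤ) {f : ℤ[X]} (hm : f.Monic) (hd : f.natDegree = 2 * g + 1)
    (ht : f.coeff (2 * g) = 0) (m : ℤ) (h : ∀ j : Fin (2 * g), m ∣ a j - f.coeff j) :
    Cg m (pol a) f := by
  intro n
  rcases Nat.lt_trichotomy n (2 * g) with h1 | h1 | h1
  · have h2 := h ⟨n, h1⟩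
    rw [← pol_coeff_lt a] at h2
    exact h2
  · rw [h1, pol_coeff_tr, ht, sub_zero]
    exact dvd_zero _
  · rcases Nat.lt_or_ge (2 * g + 1) n with h3 | h3
    · rw [pol_coeff_gt a h3, Polynomial.coeff_eq_zero_of_natDegree_lt (by omega), sub_zero]
      exact dvd_zero _
    · have h4 : n = 2 * g + 1 := by omega
      have h5 : f.coeff (2 * g + 1) = 1 := by
        rw [← hd]
        exact hm
      rw [h4, pol_coeff_top, h5, sub_self]
      exact dvd_zero _

end pol

/-- Chinese remainder theorem -/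
theorem crt (W : ℕ) (S : Finset ℕ) (hS : ∀ q ∈ S, q.Prime ∧ ¬ q ∣ W) (a : ℤ) (b : ℕ → ℤ) :
    ∃ x : ℤ, (W : ℤ) ∣ x - a ∧ ∀ q ∈ S, (q : ℤ) ∣ x - b q := by
  induction S using Finset.induction_on with
  | empty => exact ⟨a, by simp, by simp⟩
  | insert p S hp ih =>
    obtain ⟨x, hx1, hx2⟩ := ih fun q hq => hS q (Finset.mem_insert_of_mem hq)
    obtain ⟨hpp, hpW⟩ := hS p (Finset.mem_insert_self p S)
    have h1 : Nat.Coprime (W * ∏ q ∈ S, q) p := by
      rw [Nat.coprime_comm, Nat.Prime.coprime_iff_not_dvd hpp, Nat.Prime.dvd_mul hpp]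
      rintro (h | h)
      · exact hpW h
      · obtain ⟨q, hq, hpq⟩ := (Prime.dvd_finset_prod_iff hpp.prime _).1 h
        have h2 := (Nat.prime_dvd_prime_iff_eq hpp (hS q (Finset.mem_insert_of_mem hq)).1).1 hpq
        rw [h2] at hp
        exact hp hq
    obtain ⟨u, v, huv⟩ := (Nat.isCoprime_iff_coprime.2 h1)
    refine ⟨x + (W * ∏ q ∈ S, q : ℕ) * (u * (b p - x)), ?_, ?_⟩
    · have h2 : x + ((W * ∏ q ∈ S, q : ℕ) : ℤ) * (u * (b p - x)) - a =
          (x - a) + (W : ℤ) * (((∏ q ∈ S, q : ℕ) : ℤ) * (u * (b p - x))) := by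
        push_cast
        ring
      rw [h2]
      exact dvd_add hx1 (dvd_mul_right _ _)
    · intro q hq
      rcases Finset.mem_insert.1 hq with rfl | hq
      · have h2 : x + ((W * ∏ q ∈ S, q : ℕ) : ℤ) * (u * (b q - x)) - b q =
            (q : ℤ) * (v * (x - b q)) := by
          linear_combination (b q - x) * huv
        rw [h2]
        exact dvd_mul_right _ _
      · have h3 : ((W * ∏ q ∈ S, q : ℕ) : ℤ) = q * ((W * ∏ r ∈ S.erase q, r : ℕ) : ℤ) := by
          rw [← Finset.mul_prod_erase S (fun q => q) hq]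
          push_cast
          ring
        have h2 : x + ((W * ∏ q ∈ S, q : ℕ) : ℤ) * (u * (b p - x)) - b q =
            (x - b q) + (q : ℤ) * (((W * ∏ r ∈ S.erase q, r : ℕ) : ℤ) * (u * (b p - x))) := by
          rw [h3]
          ring
        rw [h2]
        exact dvd_add (hx2 q hq) (dvd_mul_right _ _)

/-- The reduction `X * h q` is separable. -/
theorem sep_X_mul {g q : ℕ} (hg : 1 ≤ g) (hq : q.Prime) {h : ℤ[X]} (hm : h.Monic)
    (hd : h.natDegree = 2 * g) (hi : Irreducible (rd q h)) : (rd q (X * h)).Separable := by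
  haveI : Fact q.Prime := ⟨hq⟩
  have h1 : rd q (X * h) = X * rd q h := by
    rw [rd, rd, Polynomial.map_mul, Polynomial.map_X]
  rw [h1]
  refine Polynomial.Separable.mul Polynomial.separable_X
    (PerfectField.separable_of_irreducible hi) ?_
  have h2 : (rd q h).natDegree = 2 * g := by
    rw [rd, hm.natDegree_map, hd]
  rw [(Polynomial.irreducible_X).coprime_iff_not_dvd]
  intro h3
  have h4 : Associated (X : (ZMod q)[X]) (rd q h) :=
    Polynomial.irreducible_X.associated_of_dvd hi h3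
  have h5 := Polynomial.natDegree_eq_of_degree_eq (Polynomial.degree_eq_degree_of_associated h4)
  rw [Polynomial.natDegree_X, h2] at h5
  omega

theorem fam (h1 : S_BX) (h2 : S_SML) (h3 : S_WK) (h4 : S_STR) (h5 : S_GF) (h6 : S_DSC) : S_FAM := by
  intro g hg
  obtain ⟨M, hM⟩ := h2 g hg
  obtain ⟨W, f₁, hf₁, hW⟩ := h5 g (max M (2 * g + 1)) hg
  have hW0 : 0 < W := hf₁.pos
  refine ⟨W, f₁, hf₁, 1 / (2 * (W : ℝ) ^ (2 * g)), by positivity, fun S h hS => ?_⟩
  obtain ⟨Q, hQ⟩ : ∃ Q : ℕ, Q = ∏ q ∈ S, q := ⟨_, rfl⟩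
  have hQ0 : 0 < Q := by
    rw [hQ]
    exact Finset.prod_pos fun q hq => (hS q hq).1.pos
  have hWQ : 0 < W * Q := Nat.mul_pos hW0 hQ0
  -- residues
  have hcrt : ∀ j : Fin (2 * g), ∃ x : ℤ, (W : ℤ) ∣ x - f₁.coeff j ∧
      ∀ q ∈ S, (q : ℤ) ∣ x - (X * h q).coeff j := fun j =>
    crt W S (fun q hq => ⟨(hS q hq).1, fun hd =>
      absurd (Nat.le_of_dvd hW0 hd) (by have := (hS q hq).2.1; omega)⟩) _ _
  choose A hA1 hA2 using hcrt
  obtain ⟨B₁, hB₁⟩ := h4 g hg (1 / (4 * ((W * Q : ℕ) : ℝ) ^ (2 * g))) (by positivity)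
  refine ⟨max B₁ (W * Q), fun B hB => ?_⟩
  have hBB1 : B₁ ≤ B := (le_max_left _ _).trans hB
  have hBWQ : W * Q ≤ B := (le_max_right _ _).trans hB
  have hB1 : 1 ≤ B := hWQ.trans_le hBWQ
  obtain ⟨hfin, hcard, -⟩ := h1 g B (W * Q) A hWQ hBWQ
  obtain ⟨hfin0, -, -⟩ := h1 g B 1 (fun _ => 0) one_pos hB1
  have hBz : (Bz g B).Finite := by
    refine hfin0.subset ?_
    intro a ha
    exact ⟨ha, fun j => by simp⟩
  have hsml := hM B (W * Q) A hWQ hBWQ
  have hstr := hB₁ B hBB1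
  set U := Bx g B (W * Q) A with hU
  set U1 := {a ∈ U | ∃ P : ℕ, P.Prime ∧ M < P ∧ P ^ 2 < B ∧ ¬ P ∣ (W * Q) ∧
    (P : ℤ) ^ 2 ∣ dis a} with hU1
  set U2 := {a ∈ Bz g B | ∃ P : ℕ, P.Prime ∧ B ≤ P ^ 2 ∧ (P : ℤ) ∣ dis a ∧ (P : ℤ) ∣ D2 a}
    with hU2
  have hU1f : U1.Finite := hfin.subset (Set.sep_subset _ _)
  have hU2f : U2.Finite := hBz.subset (Set.sep_subset _ _)
  -- the good ones are in the family
  have key : pol '' (U \ (U1 ∪ U2)) ⊆ {f : ℤ[X] | Fam g B W f₁ S h f} := by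
    rintro _ ⟨a, ⟨haU, ha⟩, rfl⟩
    have haB : ∀ j, |a j| ≤ (B : ℤ) ^ (2 * g + 1 - (j : ℕ)) := haU.1
    have haR : ∀ j, ((W * Q : ℕ) : ℤ) ∣ a j - A j := haU.2
    have hone : Cg W (pol a) f₁ := by
      apply cg_pol a hf₁.mon hf₁.deg hf₁.tr
      intro j
      have e1 : (W : ℤ) ∣ a j - A j := dvd_trans (by push_cast; exact dvd_mul_right _ _) (haR j)
      have e2 : a j - f₁.coeff j = (a j - A j) + (A j - f₁.coeff j) := by ring
      rw [e2]
      exact dvd_add e1 (hA1 j)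
    have hcon : ∀ q ∈ S, Cg q (pol a) (X * h q) := by
      intro q hq
      obtain ⟨hq1, hq2, hq3, hq4, hq5, hq6, hq7, hq8⟩ := hS q hq
      have hd : (X * h q).natDegree = 2 * g + 1 := by
        rw [Polynomial.monic_X.natDegree_mul hq5, Polynomial.natDegree_X, hq6, add_comm]
      apply cg_pol a (Polynomial.monic_X.mul hq5) hd
      · have e1 : 2 * g = (2 * g - 1) + 1 := by omega
        rw [e1, Polynomial.coeff_X_mul, hq7]
      · intro j
        have e0 : (q : ℤ) ∣ ((W * Q : ℕ) : ℤ) := by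
          have e3 : q ∣ Q := by
            rw [hQ]
            exact Finset.dvd_prod_of_mem (fun q => q) hq
          exact_mod_cast Dvd.dvd.mul_left e3 W
        have e1 : (q : ℤ) ∣ a j - A j := dvd_trans e0 (haR j)
        have e2 : a j - (X * h q).coeff j = (a j - A j) + (A j - (X * h q).coeff j) := by ring
        rw [e2]
        exact dvd_add e1 (hA2 j q hq)
    refine ⟨ht_pol haB, hone, hcon, fun P hP hPd => ?_⟩
    have hPd' : (P : ℤ) ^ 2 ∣ dis a := hPd
    have hPd1 : (P : ℤ) ∣ dsc g (pol a) := dvd_trans (dvd_pow_self _ two_ne_zero) hPd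
    have hPW : ¬ P ∣ W := by
      intro hd
      refine h6 g P (pol a) f₁ hg hP (pol_monic a) (pol_natDegree a) ?_ (hf₁.sep P hP hd) hPd1
      intro j
      exact dvd_trans (by exact_mod_cast hd) (hone j)
    have hPS : P ∉ S := by
      intro hd
      obtain ⟨hq1, hq2, hq3, hq4, hq5, hq6, hq7, hq8⟩ := hS P hd
      exact h6 g P (pol a) (X * h P) hg hP (pol_monic a) (pol_natDegree a) (hcon P hd)
        (sep_X_mul hg hP hq5 hq6 hq8) hPd1
    have hPQ : ¬ P ∣ W * Q := by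
      rw [Nat.Prime.dvd_mul hP]
      rintro (hd | hd)
      · exact hPW hd
      · rw [hQ] at hd
        obtain ⟨q, hq, hpq⟩ := (Prime.dvd_finset_prod_iff hP.prime _).1 hd
        have e1 := (Nat.prime_dvd_prime_iff_eq hP (hS q hq).1).1 hpq
        rw [e1] at hPS
        exact hPS hq
    have hPM : max M (2 * g + 1) < P := by
      by_contra hc
      exact hPW (hW P hP (not_lt.1 hc))
    have hPM1 : M < P := (le_max_left _ _).trans_lt hPM
    have hPg : 2 * g + 1 < P := (le_max_right _ _).trans_lt hPM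
    have hBP : B ≤ P ^ 2 := by
      by_contra hc
      exact ha (Or.inl ⟨haU, P, hP, hPM1, not_le.1 hc, hPQ, hPd'⟩)
    refine ⟨hBP, h3 g P hg hP hPg a hPd' fun hD => ?_⟩
    exact ha (Or.inr ⟨haB, P, hP, hBP, hPd1, hD⟩)
  -- finiteness of the family
  have hFf : {f : ℤ[X] | Fam g B W f₁ S h f}.Finite := by
    refine (hBz.image pol).subset ?_
    intro f hf
    refine ⟨fun j => f.coeff j, ?_, (eq_pol hf.ht).symm⟩
    intro j
    exact hf.ht.ht j (by have := j.2; omega)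
  -- counting
  have c1 : (U \ (U1 ∪ U2)).ncard ≤ {f : ℤ[X] | Fam g B W f₁ S h f}.ncard := by
    rw [← Set.ncard_image_of_injective _ pol_inj]
    exact Set.ncard_le_ncard key hFf
  have c2 : U.ncard ≤ (U \ (U1 ∪ U2)).ncard + (U1.ncard + U2.ncard) := by
    have e1 := Set.ncard_le_ncard_diff_add_ncard U (U1 ∪ U2) (hU1f.union hU2f)
    have e2 := Set.ncard_union_le U1 U2
    omega
  have c3 : (4 : ℝ) * U1.ncard ≤ U.ncard := by exact_mod_cast hsml
  have c4 : (B : ℝ) ^ dd g ≤ U.ncard * ((W * Q : ℕ) : ℝ) ^ (2 * g) := by exact_mod_cast hcard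
  have hP0 : (0 : ℝ) < ((W * Q : ℕ) : ℝ) ^ (2 * g) := by positivity
  have c5 : (4 : ℝ) * U2.ncard ≤ U.ncard := by
    have e1 : (U2.ncard : ℝ) ≤ 1 / (4 * ((W * Q : ℕ) : ℝ) ^ (2 * g)) *
        (U.ncard * ((W * Q : ℕ) : ℝ) ^ (2 * g)) :=
      hstr.trans (mul_le_mul_of_nonneg_left c4 (by positivity))
    have e2 : 1 / (4 * ((W * Q : ℕ) : ℝ) ^ (2 * g)) *
        (U.ncard * ((W * Q : ℕ) : ℝ) ^ (2 * g)) = U.ncard / 4 := by
      field_simp
    rw [e2] at e1
    linarith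
  have c6 : (U.ncard : ℝ) ≤ 2 * ({f : ℤ[X] | Fam g B W f₁ S h f}.ncard : ℝ) := by
    have e1 : (U.ncard : ℝ) ≤ ((U \ (U1 ∪ U2)).ncard : ℝ) + (U1.ncard + U2.ncard) := by
      exact_mod_cast c2
    have e2 : ((U \ (U1 ∪ U2)).ncard : ℝ) ≤ ({f : ℤ[X] | Fam g B W f₁ S h f}.ncard : ℝ) := by
      exact_mod_cast c1
    linarith
  have c7 : ((∏ q ∈ S, q ^ (2 * g) : ℕ) : ℝ) = (Q : ℝ) ^ (2 * g) := by
    rw [hQ, Finset.prod_pow]
    push_cast
    rfl
  rw [c7]
  have hW1 : (0 : ℝ) < (W : ℝ) ^ (2 * g) := by positivity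
  have c8 : (B : ℝ) ^ dd g ≤ (2 * ({f : ℤ[X] | Fam g B W f₁ S h f}.ncard : ℝ)) *
      ((W * Q : ℕ) : ℝ) ^ (2 * g) := c4.trans (mul_le_mul_of_nonneg_right c6 hP0.le)
  rw [one_div_mul_eq_div, div_le_iff₀ (by positivity)]
  refine c8.trans (le_of_eq ?_)
  push_cast
  rw [mul_pow]
  ring

end Pool.Agent.N316.PQ
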